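import Pool.Agent.SDet.BorderGen
import Pool.Agent.SDet.PfEnd
import Pool.Agent.Helper34.FunK

/-!
Limits of sums of functions of Pfaffians: the border inequality.
-/

set_option autoImplicit false

open MvPolynomial Finset Filter Topology
open scoped BigOperators ENNReal

namespace Pool.CF

open Pool.GT Pool.FunK Pool.PF

section conv
variable {K : Type} [Field K]

/-- the coefficients of a substitution by linear forms are finite sums -/
theorem coeff_aeval_lin {Z Y : Type} [Finite Z] (φ : Z → MvPolynomial Y K)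
    (hφ : ∀ x, (φ x).IsHomogeneous 1) (w : Y →₀ ℕ) :
    ∃ S : Finset (Z →₀ ℕ), ∀ f : MvPolynomial Z K,
      coeff w (aeval φ f) = ∑ v ∈ S, coeff v f * coeff w (aeval φ (monomial v (1 : K))) := by
  classical
  obtain ⟨S, hS⟩ := Pool.SDF.exists_box Z w.degree
  refine ⟨S, fun f => ?_⟩
  have h1 : ∀ v, coeff w (aeval φ (monomial v (coeff v f))) =
      coeff v f * coeff w (aeval φ (monomial v (1 : K))) := by
    intro v
    have h : (monomial v (coeff v f) : MvPolynomial Z K) = coeff v f • monomial v 1 := by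
      rw [smul_monomial, smul_eq_mul, mul_one]
    rw [h, map_smul, coeff_smul, smul_eq_mul]
  have h2 : ∀ v : Z →₀ ℕ, v ∉ S → coeff w (aeval φ (monomial v (1 : K))) = 0 := by
    intro v hv
    have h3 : (aeval φ (monomial v (1 : K))).IsHomogeneous v.degree := by
      rw [aeval_monomial, map_one, one_mul]
      have := Fintype.ofFinite Z
      rw [Finsupp.prod_fintype _ _ (fun _ => pow_zero _), Finsupp.degree_eq_sum]
      apply IsHomogeneous.prod
      intro i _
      have := (hφ i).pow (v i)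
      rwa [one_mul] at this
    by_contra hne
    apply hv
    apply hS
    intro x
    have h4 := h3 hne
    have h5 : w.degree = Finsupp.weight 1 w := by
      rw [Finsupp.degree_eq_weight_one]
      rfl
    rw [h5, h4]
    exact Finsupp.le_degree x v
  conv_lhs => rw [f.as_sum]
  rw [map_sum, coeff_sum, Finset.sum_congr rfl fun v _ => h1 v]
  have e1 : ∑ v ∈ f.support, coeff v f * coeff w (aeval φ (monomial v (1 : K))) =
      ∑ v ∈ f.support ∪ S, coeff v f * coeff w (aeval φ (monomial v (1 : K))) := by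
    apply Finset.sum_subset Finset.subset_union_left
    intro v _ hv
    rw [notMem_support_iff.mp hv, zero_mul]
  have e2 : ∑ v ∈ S, coeff v f * coeff w (aeval φ (monomial v (1 : K))) =
      ∑ v ∈ f.support ∪ S, coeff v f * coeff w (aeval φ (monomial v (1 : K))) := by
    apply Finset.sum_subset Finset.subset_union_right
    intro v _ hv
    rw [h2 v hv, mul_zero]
  rw [e1, e2]

/-- continuity of the coefficients of a substitution by linear forms -/
theorem tendsto_coeff_aeval [TopologicalSpace K] [IsTopologicalRing K] {Z Y : Type} [Finite Z]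
    (φ : Z → MvPolynomial Y K) (hφ : ∀ x, (φ x).IsHomogeneous 1)
    (ff : ℕ → MvPolynomial Z K) (F : MvPolynomial Z K)
    (h : ∀ v, Tendsto (fun r => coeff v (ff r)) atTop (𝓝 (coeff v F))) (w : Y →₀ ℕ) :
    Tendsto (fun r => coeff w (aeval φ (ff r))) atTop (𝓝 (coeff w (aeval φ F))) := by
  classical
  obtain ⟨S, hS⟩ := coeff_aeval_lin φ hφ w
  have e1 : (fun r => coeff w (aeval φ (ff r))) = fun r =>
      ∑ v ∈ S, coeff v (ff r) * coeff w (aeval φ (monomial v (1 : K))) :=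
    funext fun r => hS (ff r)
  rw [e1, hS F]
  exact tendsto_finsetSum _ fun v _ => (h v).mul tendsto_const_nhds

end conv

section abs
variable {K : Type} [Field K]

/-- multiplication by monomials -/
theorem monomial_mul_mem_iSup {Y0 ι S : Type} {c0 l : ℕ} (h : S → MvPolynomial Y0 K)
    (gg : S → ι → MvPolynomial Y0 K) {x : MvPolynomial Y0 K}
    (hx : x ∈ ⨆ s, Submodule.map (LinearMap.mulLeft K (h s)) (Pool.SDD.Wl (gg s) c0))
    {μ : Y0 →₀ ℕ} (hμ : μ.degree ≤ l) :
    monomial μ (1 : K) * x ∈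
      ⨆ s, Submodule.map (LinearMap.mulLeft K (h s)) (Pool.SDD.Wl (gg s) (l + c0)) := by
  have h3 : (LinearMap.mulLeft K (monomial μ (1:K))) x ∈
      Submodule.map (LinearMap.mulLeft K (monomial μ (1:K)))
        (⨆ s, Submodule.map (LinearMap.mulLeft K (h s)) (Pool.SDD.Wl (gg s) c0)) :=
    Submodule.mem_map_of_mem hx
  rw [Submodule.map_iSup] at h3
  have h4 : (⨆ s, Submodule.map (LinearMap.mulLeft K (monomial μ (1:K)))
      (Submodule.map (LinearMap.mulLeft K (h s)) (Pool.SDD.Wl (gg s) c0))) ≤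
      ⨆ s, Submodule.map (LinearMap.mulLeft K (h s)) (Pool.SDD.Wl (gg s) (l + c0)) := by
    apply iSup_mono
    intro s
    rw [Submodule.map_le_iff_le_comap, Submodule.map_le_iff_le_comap]
    intro y hy
    refine Submodule.mem_comap.2 (Submodule.mem_comap.2 (Submodule.mem_map.2
      ⟨monomial μ 1 * y, Pool.SDD.monomial_mul_mem_Wl hμ hy, ?_⟩))
    simp only [LinearMap.mulLeft_apply]
    ring
  exact h4 h3

variable [TopologicalSpace K] [IsTopologicalRing K] [T1Space K]

/-- the abstract border inequality -/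
theorem border_abs {Y0 C ι S : Type} [Fintype Y0] [Finite C] [Finite ι] [Fintype S] {c0 : ℕ}
    (g : C → MvPolynomial Y0 K) (w : ℕ → C → MvPolynomial Y0 K)
    (hw : ∀ c u, Tendsto (fun r => coeff u (w r c)) atTop (𝓝 (coeff u (g c))))
    (h : ℕ → S → MvPolynomial Y0 K) (gg : ℕ → S → ι → MvPolynomial Y0 K)
    (hex : ∀ r c, w r c ∈
      ⨆ s, Submodule.map (LinearMap.mulLeft K (h r s)) (Pool.SDD.Wl (gg r s) c0))
    (Q S0 : ℝ≥0∞)
    (hU : ∀ r s, (1 - Q) ^ (Fintype.card Y0 + 1) *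
      ∑' l, Q ^ l * (Module.finrank K (Pool.SDD.Wl (gg r s) l) : ℝ≥0∞) ≤ S0) :
    Q ^ c0 * ((1 - Q) ^ (Fintype.card Y0 + 1) *
      ∑' l, Q ^ l * (Module.finrank K (Pool.SDD.Wl g l) : ℝ≥0∞)) ≤ Fintype.card S * S0 := by
  classical
  set M := Fintype.card Y0 + 1 with hM
  set vd : ℕ → ℝ≥0∞ := fun l => (Module.finrank K (Pool.SDD.Wl g l) : ℝ≥0∞) with hvd
  have hspan : ∀ (f : C → MvPolynomial Y0 K) (l : ℕ), Pool.SDD.Wl f l =
      Submodule.span K (Set.range fun i : {μ : Y0 →₀ ℕ // μ.degree ≤ l} × C =>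
        monomial i.1.1 1 * f i.2) := by
    intro f l
    unfold Pool.SDD.Wl
    congr 1
    ext x
    constructor
    · rintro ⟨μ, k, hμ, rfl⟩
      exact ⟨(⟨μ, hμ⟩, k), rfl⟩
    · rintro ⟨⟨μ, k⟩, rfl⟩
      exact ⟨μ.1, k, μ.2, rfl⟩
  have hrank : ∀ r l, Module.finrank K (Pool.SDD.Wl (w r) l) ≤
      ∑ s, Module.finrank K (Pool.SDD.Wl (gg r s) (l + c0)) := by
    intro r l
    have hle : Pool.SDD.Wl (w r) l ≤ ⨆ s, Submodule.map (LinearMap.mulLeft K (h r s))
        (Pool.SDD.Wl (gg r s) (l + c0)) := by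
      conv_lhs => unfold Pool.SDD.Wl
      rw [Submodule.span_le]
      rintro _ ⟨μ, c, hμ, rfl⟩
      exact monomial_mul_mem_iSup (h r) (gg r) (hex r c) hμ
    refine (Submodule.finrank_mono hle).trans ?_
    refine (Pool.FD.finrank_iSup_le' _).trans ?_
    exact Finset.sum_le_sum fun s _ => Submodule.finrank_map_le _ _
  have hevl : ∀ l, ∀ᶠ r in atTop, Module.finrank K (Pool.SDD.Wl g l) ≤
      Module.finrank K (Pool.SDD.Wl (w r) l) := by
    intro l
    have hfin := Pool.SDD.finite_degree_le Y0 l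
    have h3 := Pool.SDB.finrank_le_eventually
      (fun i : {μ : Y0 →₀ ℕ // μ.degree ≤ l} × C => monomial i.1.1 (1 : K) * g i.2)
      (fun r i => monomial i.1.1 1 * w r i.2) (by
        intro i u
        simp only [coeff_monomial_mul', one_mul]
        split_ifs
        · exact hw _ _
        · exact tendsto_const_nhds)
    filter_upwards [h3] with r hr
    rw [hspan g l, hspan (w r) l]
    exact hr
  have hpart : ∀ L : ℕ, (1 - Q) ^ M * (Q ^ c0 * ∑ l ∈ range L, Q ^ l * vd l) ≤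
      Fintype.card S * S0 := by
    intro L
    have hev : ∀ᶠ r in atTop, ∀ l ∈ range L, Module.finrank K (Pool.SDD.Wl g l) ≤
        Module.finrank K (Pool.SDD.Wl (w r) l) := by
      rw [Filter.eventually_all_finset]
      intro l _
      exact hevl l
    obtain ⟨r, hr⟩ := hev.exists
    have h1 : Q ^ c0 * ∑ l ∈ range L, Q ^ l * vd l ≤
        ∑ s, ∑' l, Q ^ l * (Module.finrank K (Pool.SDD.Wl (gg r s) l) : ℝ≥0∞) := by
      calc Q ^ c0 * ∑ l ∈ range L, Q ^ l * vd l
          ≤ Q ^ c0 * ∑ l ∈ range L, ∑ s,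
              Q ^ l * (Module.finrank K (Pool.SDD.Wl (gg r s) (l + c0)) : ℝ≥0∞) := by
            refine mul_le_mul_right (Finset.sum_le_sum fun l hl => ?_) _
            rw [← Finset.mul_sum]
            refine mul_le_mul_right ?_ _
            have h2 := (hr l hl).trans (hrank r l)
            change ((Module.finrank K (Pool.SDD.Wl g l) : ℕ) : ℝ≥0∞) ≤ _
            exact_mod_cast h2
        _ ≤ Q ^ c0 * ∑' l, ∑ s,
              Q ^ l * (Module.finrank K (Pool.SDD.Wl (gg r s) (l + c0)) : ℝ≥0∞) :=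
            mul_le_mul_right (ENNReal.sum_le_tsum _) _
        _ = ∑ s, Q ^ c0 * ∑' l,
              Q ^ l * (Module.finrank K (Pool.SDD.Wl (gg r s) (l + c0)) : ℝ≥0∞) := by
            rw [Summable.tsum_finsetSum (fun _ _ => ENNReal.summable), Finset.mul_sum]
        _ ≤ _ := by
            refine Finset.sum_le_sum fun s _ => ?_
            exact Pool.SDD.series_shift (fun l => Module.finrank K (Pool.SDD.Wl (gg r s) l)) c0 Q
    calc (1 - Q) ^ M * (Q ^ c0 * ∑ l ∈ range L, Q ^ l * vd l)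
        ≤ (1 - Q) ^ M * ∑ s, ∑' l,
            Q ^ l * (Module.finrank K (Pool.SDD.Wl (gg r s) l) : ℝ≥0∞) :=
          mul_le_mul_right h1 _
      _ ≤ Fintype.card S * S0 := by
          rw [Finset.mul_sum]
          refine (Finset.sum_le_sum fun s _ => hU r s).trans ?_
          rw [Finset.sum_const, Finset.card_univ, nsmul_eq_mul]
  have hfinal : (1 - Q) ^ M * (Q ^ c0 * ∑' l, Q ^ l * vd l) ≤ Fintype.card S * S0 := by
    rw [ENNReal.tsum_eq_iSup_nat, ENNReal.mul_iSup, ENNReal.mul_iSup]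
    exact iSup_le hpart
  calc Q ^ c0 * ((1 - Q) ^ M * ∑' l, Q ^ l * vd l)
      = (1 - Q) ^ M * (Q ^ c0 * ∑' l, Q ^ l * vd l) := by ring
    _ ≤ _ := hfinal

end abs

section extract
variable {K : Type} [Field K] {Z Y0 : Type} {D : ℕ}

/-- all ones -/
noncomputable def ones (D : ℕ) : Fin D →₀ ℕ := ∑ b : Fin D, Finsupp.single b 1

lemma ones_degree : (ones D).degree = D := by
  unfold ones
  rw [map_sum]
  simp

/-- the mixed coefficient -/
noncomputable def Lam (ψ : Z → MvPolynomial (Y0 ⊕ Fin D) K) (f : MvPolynomial Z K) :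
    MvPolynomial Y0 K :=
  coeff (ones D) (Th K Y0 (Fin D) (aeval ψ f))

lemma coeff_Lam (ψ : Z → MvPolynomial (Y0 ⊕ Fin D) K) (f : MvPolynomial Z K) (u : Y0 →₀ ℕ) :
    coeff u (Lam ψ f) = coeff (u.embDomain ⟨Sum.inl, Sum.inl_injective⟩ +
      ∑ b : Fin D, Finsupp.single (Sum.inr b) 1) (aeval ψ f) := by
  unfold Lam
  rw [coeff_Th, Finsupp.embDomain_eq_mapDomain]
  congr 2
  unfold ones
  rw [Finsupp.mapDomain_finsetSum]
  exact Finset.sum_congr rfl fun b _ => Finsupp.mapDomain_single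

lemma coeff_zero_Th (φ0 : Z → MvPolynomial Y0 K) (ψ : Z → MvPolynomial (Y0 ⊕ Fin D) K)
    (hψ2 : ∀ x, aeval (Sum.elim X 0 : _ → MvPolynomial Y0 K) (ψ x) = φ0 x)
    (f : MvPolynomial Z K) :
    coeff 0 (Th K Y0 (Fin D) (aeval ψ f)) = aeval φ0 f := by
  have h1 : aeval (Sum.elim X 0 : _ → MvPolynomial Y0 K) (aeval ψ f) = aeval φ0 f := by
    rw [comp_aeval_apply]
    congr 2
    funext x
    exact hψ2 x
  rw [← h1]
  ext T
  rw [coeff_Th, Finsupp.mapDomain_zero, add_zero,
    ← Pool.Agent.Helper76.CDET.coeff_eps0]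
  rfl

/-- members of the top level -/
lemma Lam_mem {E ι ι' : Type} {dl nu : ℕ}
    (pK : ι' → MvPolynomial E K) (pk : ι → MvPolynomial E K)
    (φ0 : Z → MvPolynomial Y0 K) (ψ : Z → MvPolynomial (Y0 ⊕ Fin D) K)
    (hψ1 : ∀ x, (ψ x).totalDegree ≤ 1)
    (hψ2 : ∀ x, aeval (Sum.elim X 0 : _ → MvPolynomial Y0 K) (ψ x) = φ0 x)
    (hR2 : ∀ (A : E → MvPolynomial (Y0 ⊕ Fin D) K),
      (∀ e, (A e).totalDegree ≤ dl) → ∀ F ∈ Pool.SDD.Wl (fun j => aeval A (pK j)) nu,
      ∃ G ∈ Pool.SDD.Wl (fun j => aeval (fun e => aeval (Sum.elim X 0 : _ →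
        MvPolynomial Y0 K) (A e)) (pk j)) (nu + D * (dl - 1)),
      ∀ u : Y0 →₀ ℕ, coeff u G =
        coeff (u.embDomain ⟨Sum.inl, Sum.inl_injective⟩ +
          ∑ b : Fin D, Finsupp.single (Sum.inr b) 1) F)
    (A : E → MvPolynomial Z K) (hA : ∀ e, (A e).totalDegree ≤ dl)
    (f : MvPolynomial Z K) (hf : f ∈ Pool.SDD.Wl (fun j => aeval A (pK j)) nu) :
    Lam ψ f ∈ Pool.SDD.Wl (fun j => aeval (fun e => aeval φ0 (A e)) (pk j))
        (nu + D * (dl - 1)) := by
  obtain ⟨G, hG, hGc⟩ := Pool.SDD.extractG (T := 1) pK pk φ0 ψ hψ1 hψ2 hR2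
    (fun _ => A) (fun _ => hA) (fun _ => f) (fun _ => hf)
  have h1 : Lam ψ f = G 0 := by
    ext u
    have h2 := hGc u
    rw [Fin.sum_univ_one, Fin.sum_univ_one] at h2
    rw [coeff_Lam, h2]
  rw [h1]
  exact hG 0

end extract

/-- sums of `T` products of a polynomial of degree at most `nu` and a polynomial in `a` Pfaffians
of order at most `2 m` with entries of degree at most `d`; the degree of the outer polynomials is at
most `e`, if `e < n` -/
def IsFS {K : Type} [Field K] {Z : Type} (T a m e n d nu : ℕ) (f : MvPolynomial Z K) : Prop :=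
  ∃ (s : Fin T → Fin a → ℕ) (R : Fin T → MvPolynomial Z K) (P : Fin T → MvPolynomial (Fin a) K)
    (A : ∀ t i, Matrix (Fin (2 * s t i)) (Fin (2 * s t i)) (MvPolynomial Z K)),
    (∀ t i, s t i ≤ m) ∧ (∀ t, (R t).totalDegree ≤ nu) ∧
    (e < n → ∀ t, (P t).totalDegree ≤ e) ∧ (∀ t i p q, (A t i p q).totalDegree ≤ d) ∧
    f = ∑ t, R t * aeval (fun i => pf (s t i) (A t i)) (P t)

section fs
variable {K : Type} [Field K] {Z Y0 Cc : Type} {D : ℕ}

/-- the mixed coefficients of a sum of functions of Pfaffians -/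
theorem extractFS {T a m e n d nu M k : ℕ} (hM : m * min e D ≤ M) (hk : k + D = M)
    (hDn : D ≤ n) (hd : 1 ≤ d) (f : MvPolynomial Z K) (hf : IsFS T a m e n d nu f)
    (φ0 : Z → MvPolynomial Y0 K) (ψ : Cc → Z → MvPolynomial (Y0 ⊕ Fin D) K)
    (hψ1 : ∀ c x, (ψ c x).totalDegree ≤ 1)
    (hψ2 : ∀ c x, aeval (Sum.elim X 0 : _ → MvPolynomial Y0 K) (ψ c x) = φ0 x) :
    ∃ (h : Fin T × Sym (Option (Fin a)) (min e D) → MvPolynomial Y0 K)
      (B : Fin T × Sym (Option (Fin a)) (min e D) → Cell (2 * M) → MvPolynomial Z K),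
      (∀ z c, (B z c).totalDegree ≤ d) ∧
      ∀ c, Lam (ψ c) f ∈ ⨆ z, Submodule.map (LinearMap.mulLeft K (h z))
        (Pool.SDD.Wl (fun j => aeval (fun x => aeval φ0 (B z x)) (pfam K (2 * M) k j))
          (nu + D * (d - 1))) := by
  classical
  obtain ⟨s, R, P, A, hs, hR, hP, hA, hfA⟩ := hf
  set d' := min e D with hd'
  have htay : ∀ t, ∃ Q : MvPolynomial (Fin a) (MvPolynomial Y0 K),
      (∀ β ∈ Q.support, β.degree ≤ d') ∧
      ∀ F : Fin a → MvPolynomial (Fin D) (MvPolynomial Y0 K),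
        (∀ i, coeff 0 (F i) = aeval φ0 (pf (s t i) (A t i))) →
        Ord (D + 1) (eval₂ C F (MvPolynomial.map C (P t)) - eval₂ C F Q) := by
    intro t
    rcases lt_or_ge e D with he | he
    · have h1 : (MvPolynomial.map (C : K →+* MvPolynomial Y0 K) (P t)).totalDegree ≤ e :=
        (Finset.sup_mono (support_map_subset _ _)).trans (hP (lt_of_lt_of_le he hDn) t)
      exact taylor_min (Y := Fin D) D e _ h1 _
    · rw [hd', min_eq_right he]
      exact taylor_trunc (Y := Fin D) D _ _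
  choose q hq1 hq2 using htay
  have hpr : ∀ (t : Fin T) (x : Sym (Option (Fin a)) d'), IsPfm M d
      (∏ i, (pf (s t i) (A t i)) ^ Pool.FD.expo x i) := by
    intro t x
    have h1 := IsPfm.prod Finset.univ (fun i => pf (s t i) (A t i))
      (fun i => Pool.FD.expo x i) (fun i => ⟨s t i, hs t i, A t i, hA t i, rfl⟩)
    rw [← Finsupp.degree_eq_sum] at h1
    refine h1.mono (le_trans ?_ hM)
    rw [Nat.mul_comm]
    exact Nat.mul_le_mul_left m (degree_expo_le x)
  have hB : ∀ z : Fin T × Sym (Option (Fin a)) d', ∃ B : Cell (2 * M) → MvPolynomial Z K,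
      (∀ c, (B c).totalDegree ≤ d) ∧
      (∏ i, (pf (s z.1 i) (A z.1 i)) ^ Pool.FD.expo z.2 i) =
        aeval B (gpf K (id : Cell (2 * M) → Cell (2 * M)) M id) := by
    intro z
    obtain ⟨s', hs', A', hA', h1⟩ := hpr z.1 z.2
    obtain ⟨B, hB1, hB2⟩ := exists_aeval hs' d A' hA'
    exact ⟨B, hB1, h1.trans hB2⟩
  choose B hB1 hB2 using hB
  refine ⟨fun z => coeff (Pool.FD.expo z.2) (q z.1), B, hB1, fun c => ?_⟩
  -- the members
  have hmem : ∀ z : Fin T × Sym (Option (Fin a)) d',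
      Lam (ψ c) (R z.1 * ∏ i, (pf (s z.1 i) (A z.1 i)) ^ Pool.FD.expo z.2 i) ∈
        Pool.SDD.Wl (fun j => aeval (fun x => aeval φ0 (B z x)) (pfam K (2 * M) k j))
          (nu + D * (d - 1)) := by
    intro z
    refine Lam_mem (pfam K (2 * M) (k + D)) (pfam K (2 * M) k) φ0 (ψ c) (hψ1 c) (hψ2 c)
      (fun A hA F hF => Pool.SDD.R2 (pfam K (2 * M)) pfam_tower k D nu d hd A hA F hF)
      (B z) (hB1 z) _ ?_
    have h0 : aeval (B z) (pfam K (2 * M) M (RelEmbedding.refl _)) ∈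
        Pool.SDD.Wl (fun j => aeval (B z) (pfam K (2 * M) M j)) 0 :=
      Submodule.subset_span ⟨0, RelEmbedding.refl _, by simp, by simp⟩
    have h1 := Pool.SDD.mul_mem_Wl (hR z.1) h0
    rw [Nat.add_zero] at h1
    rw [hk, hB2 z]
    exact h1
  set th := Th K Y0 (Fin D) with hth
  have hexp : Lam (ψ c) f = ∑ t, ∑ β ∈ (q t).support, coeff β (q t) *
      Lam (ψ c) (R t * ∏ i, (pf (s t i) (A t i)) ^ β i) := by
    unfold Lam
    rw [hfA, map_sum, map_sum, coeff_sum]
    refine Finset.sum_congr rfl fun t _ => ?_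
    have h1 := hq2 t (fun i => th (aeval (ψ c) (pf (s t i) (A t i))))
      (fun i => coeff_zero_Th φ0 (ψ c) (hψ2 c) _)
    have h2 : Ord (0 + (D + 1)) (th (aeval (ψ c) (R t)) *
        (eval₂ C (fun i => th (aeval (ψ c) (pf (s t i) (A t i))))
          (MvPolynomial.map C (P t)) -
          eval₂ C (fun i => th (aeval (ψ c) (pf (s t i) (A t i)))) (q t))) :=
      Ord.mul (fun κ hκ => absurd hκ (Nat.not_lt_zero _)) h1
    have h3 := h2 (ones D) (by rw [ones_degree]; omega)
    rw [mul_sub, coeff_sub, sub_eq_zero] at h3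
    have hT : th (aeval (ψ c) (aeval (fun i => pf (s t i) (A t i)) (P t))) =
        eval₂ C (fun i => th (aeval (ψ c) (pf (s t i) (A t i))))
          (MvPolynomial.map C (P t)) := by
      rw [eval₂_map]
      have e1 := comp_aeval_apply (f := fun i => pf (s t i) (A t i))
        ((Th K Y0 (Fin D)).comp (aeval (ψ c))) (P t)
      have e2 : (C : MvPolynomial Y0 K →+* MvPolynomial (Fin D) (MvPolynomial Y0 K)).comp
          (C : K →+* MvPolynomial Y0 K) =
          algebraMap K (MvPolynomial (Fin D) (MvPolynomial Y0 K)) := by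
        ext1 r
        rw [IsScalarTower.algebraMap_apply K (MvPolynomial Y0 K)
          (MvPolynomial (Fin D) (MvPolynomial Y0 K)), algebraMap_eq, algebraMap_eq]
        rfl
      rw [e2]
      exact e1
    rw [map_mul, map_mul, hT]
    refine h3.trans ?_
    rw [eval₂_eq', Finset.mul_sum, coeff_sum]
    refine Finset.sum_congr rfl fun β _ => ?_
    have h4 : th (aeval (ψ c) (R t)) * (C (coeff β (q t)) *
        ∏ i, th (aeval (ψ c) (pf (s t i) (A t i))) ^ β i) =
        C (coeff β (q t)) * th (aeval (ψ c) (R t * ∏ i, (pf (s t i) (A t i)) ^ β i)) := by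
      simp only [map_mul, map_prod, map_pow]
      ring
    rw [h4, coeff_C_mul]
  rw [hexp]
  refine Submodule.sum_mem _ fun t _ => Submodule.sum_mem _ fun β hβ => ?_
  refine Submodule.mem_iSup_of_mem (t, Pool.FD.indx β (hq1 t β hβ)) ?_
  refine Submodule.mem_map.2 ⟨Lam (ψ c) (R t * ∏ i, (pf (s t i) (A t i)) ^ β i), ?_, ?_⟩
  · have h5 := hmem (t, Pool.FD.indx β (hq1 t β hβ))
    simp only [Pool.FD.expo_indx] at h5
    exact h5
  · simp only [LinearMap.mulLeft_apply, Pool.FD.expo_indx]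

variable [TopologicalSpace K] [IsTopologicalRing K] [T1Space K]

/-- the border inequality for sums of functions of Pfaffians -/
theorem border_FS [Finite Z] [Fintype Y0] [Finite Cc] {T a m e n d nu M : ℕ}
    (hM : m * min e D ≤ M) (hDM : D < M) (hDn : D ≤ n) (hd : 1 ≤ d)
    (φ0 : Z → MvPolynomial Y0 K) (ψ : Cc → Z → MvPolynomial (Y0 ⊕ Fin D) K)
    (hφ0 : ∀ x, (φ0 x).totalDegree ≤ 1)
    (hψ1 : ∀ c x, (ψ c x).IsHomogeneous 1)
    (hψ2 : ∀ c x, aeval (Sum.elim X 0 : _ → MvPolynomial Y0 K) (ψ c x) = φ0 x)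
    (ff : ℕ → MvPolynomial Z K) (hff : ∀ r, IsFS T a m e n d nu (ff r))
    (F : MvPolynomial Z K)
    (h : ∀ u, Tendsto (fun r => coeff u (ff r)) atTop (𝓝 (coeff u F)))
    (Q : ℝ≥0∞) (hQ : Q < 1) :
    Q ^ (nu + D * (d - 1)) * ((1 - Q) ^ (Fintype.card Y0 + 1) *
      ∑' l, Q ^ l * (Module.finrank K (Pool.SDD.Wl (fun c => Lam (ψ c) F) l) : ℝ≥0∞)) ≤
      ((T * (a + min e D).choose (min e D) : ℕ) : ℝ≥0∞) * ∑ j ∈ Finset.range (2 * D + 1),
        (Nat.choose (2 * M - 2 * D - 1 + j) j : ℝ≥0∞) * (1 - Q ^ d) ^ j := by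
  classical
  obtain ⟨k, hk⟩ : ∃ k, k + D = M := ⟨M - D, by omega⟩
  have hdeg1 : ∀ c x, (ψ c x).totalDegree ≤ 1 := fun c x => (hψ1 c x).totalDegree_le
  choose hh B hB1 hB2 using fun r => extractFS hM hk hDn hd (ff r) (hff r) φ0 ψ hdeg1 hψ2
  have key := border_abs (c0 := nu + D * (d - 1)) (fun c => Lam (ψ c) F)
    (fun r c => Lam (ψ c) (ff r)) (by
      intro c u
      simp only [coeff_Lam]
      exact tendsto_coeff_aeval (ψ c) (hψ1 c) ff F h _) hh
    (fun r z j => aeval (fun x => aeval φ0 (B r z x)) (pfam K (2 * M) k j)) hB2 Q _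
    (fun r z => Pool.SDD.pf_hU (by omega) (by omega) hd _ (by
      intro x
      have h1 := Pool.SDD.totalDegree_aeval_le_mul φ0 1 hφ0 (B r z x)
      rw [mul_one] at h1
      exact h1.trans (hB1 r z x)) Q hQ)
  refine key.trans (le_of_eq ?_)
  have hcard : Fintype.card (Fin T × Sym (Option (Fin a)) (min e D)) =
      T * (a + min e D).choose (min e D) := Pool.FD.card_index T a (min e D)
  rw [hcard]
  congr 1
  rw [show 2 * (M - k) + 1 = 2 * D + 1 by omega, show 2 * k - 1 = 2 * M - 2 * D - 1 by omega]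

end fs

end Pool.CF
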