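import Pool.Agent.Helper11.CF.Border
import Pool.Agent.SDet.SatCount
import Pool.Agent.Helper59.SAT.RTNumF
import Pool.Agent.Helper59.SAT.NumPf3

/-!
Counting satisfying assignments by sums of functions of Pfaffians, over any normed field.
-/

set_option autoImplicit false

namespace Pool.CF

open Finset MvPolynomial Pool.SatDet Pool.SatCount Filter Topology
open scoped ENNReal BigOperators

variable {n k : ℕ}

lemma phi_homog (K : Type) [Field K] (hk : 0 < k) {D : ℕ} (hD : D * k ≤ n)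
    (c : Fin (D * k) → Bool) (C : Clause n k) : (phi K hk hD c C).IsHomogeneous 1 := by
  classical
  unfold phi
  split_ifs
  · exact isHomogeneous_zero _ _ _
  · exact isHomogeneous_X _ _
  · exact isHomogeneous_zero _ _ _
  · exact isHomogeneous_X _ _

lemma Lam_satPoly (K : Type) [Field K] (hk : 0 < k) (hkn : k ≤ n) {D : ℕ} (hD : D * k ≤ n)
    (c : Fin (D * k) → Bool) : Lam (phi K hk hD c) (satPoly K n k) = gm K c := by
  ext u
  rw [coeff_Lam]
  exact (coeff_gm K hk hkn hD c u).symm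

/-- the main inequality in `ENNReal` -/
theorem main_ennreal (K : Type) [Field K] [TopologicalSpace K] [IsTopologicalRing K] [T1Space K]
    {T a m e d nu D M : ℕ} (hM : m * min e D ≤ M) (hDM : D < M)
    (hk : 0 < k) (hkn : k ≤ n) (hD : D * k ≤ n) (hd : 1 ≤ d)
    (ff : ℕ → MvPolynomial (Clause n k) K) (hff : ∀ r, IsFS T a m e n d nu (ff r))
    (h : ∀ u, Tendsto (fun r => coeff u (ff r)) atTop (𝓝 (coeff u (satPoly K n k))))
    (Q : ℝ≥0∞) (hQ : Q < 1) (hQ0 : Q ≠ 0)
    (Z : ℝ≥0∞) (hZ0 : Z ≠ 0) (hZt : Z ≠ ∞)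
    (hZ : ∀ c : Fin (D * k) → Bool, ∑ c' : Fin (D * k) → Bool,
      Q ^ (∑ x : Clause n k, (Mm D c' x - Mm D c x)) ≤ Z) :
    Q ^ (nu + D * (d - 1)) * (Fintype.card (Fin (D * k) → Bool) : ℝ≥0∞) ≤
      Z * (((T * (a + min e D).choose (min e D) : ℕ) : ℝ≥0∞) *
        ∑ j ∈ Finset.range (2 * D + 1),
        (Nat.choose (2 * M - 2 * D - 1 + j) j : ℝ≥0∞) * (1 - Q ^ d) ^ j) := by
  classical
  set B := #((Finset.powersetCard k (Finset.univ : Finset (Fin n))).filter
    fun s => ¬ IsBlk (k := k) D s) with hBdef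
  have hDn : D ≤ n := (Nat.le_mul_of_pos_right D hk).trans hD
  have hgen := border_FS (K := K) hM hDM hDn hd (phi0 K n k D) (phi K hk hD)
    (totalDegree_phi0 K D) (phi_homog K hk hD) (aeval_phi K hk hD) ff hff (satPoly K n k) h Q hQ
  have hL : (fun c => Lam (phi K hk hD c) (satPoly K n k)) = gm (n := n) (k := k) K (D := D) :=
    funext fun c => Lam_satPoly K hk hkn hD c
  rw [hL] at hgen
  have hlow := Pool.PTest.low_series' (gm (n := n) (k := k) K (D := D))
    (fun c => Finsupp.equivFunOnFinite.symm (Mm (n := n) (k := k) D c)) B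
    (by
      intro c
      rw [Finsupp.degree_eq_sum]
      exact sum_Mm D c)
    (by
      intro c U hU
      rw [gm_eq, coeff_monomial] at hU
      split_ifs at hU with h1
      · exact h1.le
      · exact absurd rfl hU)
    (by
      intro c
      rw [gm_eq, coeff_monomial, if_pos rfl]
      exact one_ne_zero) Q hQ
  have hsm := series_sm (fun c : Fin (D * k) → Bool => Mm (n := n) (k := k) D c) B
    (fun c => sum_Mm D c) Q hQ hQ0 Z hZ0 hZt hZ
  have hQt : Q ≠ ∞ := (hQ.trans_le le_top).ne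
  set Se := (1 - Q) ^ (Fintype.card (Clause n k) + 1) *
      ∑' l, Q ^ l * (Module.finrank K (Pool.SDD.Wl (gm (n := n) (k := k) K (D := D)) l) : ℝ≥0∞)
    with hSe
  have h3 : (Fintype.card (Fin (D * k) → Bool) : ℝ≥0∞) * Q ^ B ≤ (Z * Se) * Q ^ B := by
    refine hsm.trans ?_
    calc Z * ((1 - Q) ^ Fintype.card (Clause n k) * ∑' u : Clause n k → ℕ,
          (if ∃ c : Fin (D * k) → Bool, ∀ x, Mm D c x ≤ u x then Q ^ (∑ x, u x) else 0))
        ≤ Z * (Q ^ B * Se) := mul_le_mul_right hlow _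
      _ = _ := by ring
  have h4 : (Fintype.card (Fin (D * k) → Bool) : ℝ≥0∞) ≤ Z * Se :=
    (ENNReal.mul_le_mul_iff_left (pow_ne_zero _ hQ0) (ENNReal.pow_ne_top hQt)).1 h3
  calc Q ^ (nu + D * (d - 1)) * (Fintype.card (Fin (D * k) → Bool) : ℝ≥0∞)
      ≤ Q ^ (nu + D * (d - 1)) * (Z * Se) := mul_le_mul_right h4 _
    _ = Z * (Q ^ (nu + D * (d - 1)) * Se) := by ring
    _ ≤ _ := mul_le_mul_right hgen _

/-- the main inequality -/
theorem main_real (K : Type) [Field K] [TopologicalSpace K] [IsTopologicalRing K] [T1Space K]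
    {T a m e d nu D M : ℕ} (hM : m * min e D ≤ M) (hDM : D < M)
    (hk : 0 < k) (hkn : k ≤ n) (hD : D * k ≤ n) (hd : 1 ≤ d)
    (ff : ℕ → MvPolynomial (Clause n k) K) (hff : ∀ r, IsFS T a m e n d nu (ff r))
    (h : ∀ u, Tendsto (fun r => coeff u (ff r)) atTop (𝓝 (coeff u (satPoly K n k))))
    (q : ℝ) (hq0 : 0 < q) (hq1 : q < 1) :
    q ^ (nu + D * (d - 1)) * 2 ^ (D * k) ≤
      (∑ j ∈ range (D * k + 1),
        ((D * k).choose j : ℝ) * q ^ (n.choose k - (n - j).choose k - j)) *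
      (((T * (a + min e D).choose (min e D) : ℕ) : ℝ) * ∑ j ∈ Finset.range (2 * D + 1),
        (Nat.choose (2 * M - 2 * D - 1 + j) j : ℝ) * (1 - q ^ d) ^ j) := by
  classical
  set Q : ℝ≥0∞ := ENNReal.ofReal q with hQdef
  have hQ1 : Q < 1 := by
    rw [hQdef, ENNReal.ofReal_lt_one]
    exact hq1
  have hQ0 : Q ≠ 0 := (ENNReal.ofReal_pos.2 hq0).ne'
  set Z : ℝ := ∑ j ∈ range (D * k + 1),
        ((D * k).choose j : ℝ) * q ^ (n.choose k - (n - j).choose k - j) with hZdef
  have hZ0 : 0 < Z := by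
    have h0 : (0 : ℝ) < ((D * k).choose 0 : ℝ) * q ^ (n.choose k - (n - 0).choose k - 0) := by
      simp
    exact lt_of_lt_of_le h0 (Finset.single_le_sum
      (f := fun j => ((D * k).choose j : ℝ) * q ^ (n.choose k - (n - j).choose k - j))
      (fun j _ => by positivity) (Finset.mem_range.2 (Nat.succ_pos _)))
  have hpw : ∀ i : ℕ, Q ^ i = ENNReal.ofReal (q ^ i) := fun i => by
    rw [hQdef, ENNReal.ofReal_pow hq0.le]
  have key := main_ennreal (n := n) (k := k) K hM hDM hk hkn hD hd ff hff h Q hQ1 hQ0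
    (ENNReal.ofReal Z)
    (ENNReal.ofReal_pos.2 hZ0).ne' ENNReal.ofReal_ne_top (by
      intro c
      have h4 : ∑ c' : Fin (D * k) → Bool, Q ^ (∑ x : Clause n k, (Mm D c' x - Mm D c x)) =
          ENNReal.ofReal (∑ c' : Fin (D * k) → Bool,
            q ^ (∑ x : Clause n k, (Mm D c' x - Mm D c x))) := by
        rw [ENNReal.ofReal_sum_of_nonneg (fun j _ => by positivity)]
        exact Finset.sum_congr rfl fun c' _ => hpw _
      rw [h4]
      apply ENNReal.ofReal_le_ofReal
      rw [hZdef, ← sum_dif c (fun j => q ^ (n.choose k - (n - j).choose k - j))]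
      refine Finset.sum_le_sum fun c' _ => ?_
      have h1 := diff_ge (n := n) D c c'
      rw [card_dif D hD] at h1
      exact pow_le_pow_of_le_one hq0.le hq1.le h1)
  have h1q : ∀ i : ℕ, 0 ≤ 1 - q ^ i := fun i => by
    have := pow_le_one₀ (n := i) hq0.le hq1.le
    linarith
  have e2 : ∑ j ∈ Finset.range (2 * D + 1),
        (Nat.choose (2 * M - 2 * D - 1 + j) j : ℝ≥0∞) * (1 - Q ^ d) ^ j =
      ENNReal.ofReal (∑ j ∈ Finset.range (2 * D + 1),
        (Nat.choose (2 * M - 2 * D - 1 + j) j : ℝ) * (1 - q ^ d) ^ j) := by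
    rw [ENNReal.ofReal_sum_of_nonneg (fun j _ => mul_nonneg (by positivity)
      (pow_nonneg (h1q d) _))]
    apply Finset.sum_congr rfl
    intro j _
    have e0 : (1 : ℝ≥0∞) - Q ^ d = ENNReal.ofReal (1 - q ^ d) := by
      rw [hpw, ENNReal.ofReal_sub _ (by positivity), ENNReal.ofReal_one]
    rw [e0, ENNReal.ofReal_mul (by positivity), ENNReal.ofReal_pow (h1q d), ENNReal.ofReal_natCast]
  have hS : 0 ≤ ∑ j ∈ Finset.range (2 * D + 1),
        (Nat.choose (2 * M - 2 * D - 1 + j) j : ℝ) * (1 - q ^ d) ^ j :=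
    Finset.sum_nonneg (fun j _ => mul_nonneg (by positivity) (pow_nonneg (h1q d) _))
  have e3 : (Fintype.card (Fin (D * k) → Bool) : ℝ≥0∞) = ENNReal.ofReal (2 ^ (D * k)) := by
    rw [ENNReal.ofReal_pow (by norm_num)]
    simp
  rw [e2, e3, hpw, ← ENNReal.ofReal_natCast (T * (a + min e D).choose (min e D)),
    ← ENNReal.ofReal_mul (by positivity),
    ← ENNReal.ofReal_mul (by positivity), ← ENNReal.ofReal_mul hZ0.le] at key
  exact (ENNReal.ofReal_le_ofReal_iff (by positivity)).1 key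

lemma choose_mono' (a : ℕ) {x y : ℕ} (h : x ≤ y) : (a + x).choose x ≤ (a + y).choose y := by
  have h1 : (a + x).choose x = (a + x).choose a := Nat.choose_symm_add.symm
  have h2 : (a + y).choose y = (a + y).choose a := Nat.choose_symm_add.symm
  rw [h1, h2]
  exact Nat.choose_le_choose a (by omega)

open Classical in
/-- the final statement -/
theorem final : ∀ ε : ℝ, 0 < ε → ∃ K₀ : ℕ, 1 ≤ K₀ ∧
    ∀ (K : Type) [NormedField K] (n k T a m e d v : ℕ), K₀ ≤ k → K₀ * k ≤ n →
    (a : ℝ) ≤ 2 ^ (k / K₀ : ℝ) * n → 1 ≤ d → n * d ≤ n.choose k →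
    (m * d * min e n : ℝ) ≤ 2 ^ (k / K₀ : ℝ) * n.choose k →
    (∀ δ : ℝ, 0 < δ → ∃ (s : Fin T → Fin a → ℕ) (R : Fin T → MvPolynomial (Clause n k) K)
      (P : Fin T → MvPolynomial (Fin a) K)
      (A : ∀ t i, Matrix (Fin (2 * s t i)) (Fin (2 * s t i)) (MvPolynomial (Clause n k) K)),
      (∀ t i, s t i ≤ m) ∧ (∀ t, (R t).totalDegree ≤ v) ∧
      (e < n → ∀ t, (P t).totalDegree ≤ e) ∧ (∀ t i x y, (A t i x y).totalDegree ≤ d) ∧
      ∀ u, ‖coeff u (∑ b : Fin n → Bool, ∏ C ∈ univ.filter (fun C : Clause n k => ¬ Sats b C), X C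
        - ∑ t, R t * aeval (fun i => Pool.PF.pf (s t i) (A t i)) (P t))‖ < δ) →
    (2 : ℝ) ^ ((1 - v / n.choose k - ε) * n) ≤ T := by
  intro ε hε
  obtain ⟨K1, hK1, H⟩ := numericsPf (ε / 2) (by positivity)
  obtain ⟨K2, hK2⟩ := exists_nat_ge (14 / ε)
  set K0 : ℕ := max K1 (max K2 3) with hK0
  have hK01 : K1 ≤ K0 := le_max_left _ _
  have hK02 : K2 ≤ K0 := (le_max_left _ _).trans (le_max_right _ _)
  have hK03 : 3 ≤ K0 := (le_max_right _ _).trans (le_max_right _ _)
  have hK0pos : 0 < K0 := by omega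
  refine ⟨K0 * K0, Nat.mul_pos hK0pos hK0pos, ?_⟩
  intro K _ n k T a m e d v hk hn ha hd hnd hmd h
  have hkK0 : K0 ≤ k := (Nat.le_mul_of_pos_left K0 hK0pos).trans hk
  have hk0 : 0 < k := by omega
  have hkn : k ≤ n := (Nat.le_mul_of_pos_left k (Nat.mul_pos hK0pos hK0pos)).trans hn
  have hn1 : 1 ≤ n := by omega
  -- sequences
  have hseq : ∃ ff : ℕ → MvPolynomial (Clause n k) K, (∀ r, IsFS T a m e n d v (ff r)) ∧
      ∀ u, Tendsto (fun r => coeff u (ff r)) atTop (𝓝 (coeff u (satPoly K n k))) := by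
    choose s R P A hs hR hP hA hu using fun r : ℕ => h (1 / ((r : ℝ) + 1)) (by positivity)
    refine ⟨fun r => ∑ t, R r t * aeval (fun i => Pool.PF.pf (s r t i) (A r t i)) (P r t),
      fun r => ⟨s r, R r, P r, A r, hs r, hR r, hP r, hA r, rfl⟩, fun u => ?_⟩
    rw [tendsto_iff_norm_sub_tendsto_zero]
    refine squeeze_zero (fun r => norm_nonneg _) (fun r => ?_)
      tendsto_one_div_add_atTop_nhds_zero_nat
    rw [norm_sub_rev, ← coeff_sub]
    exact (hu r u).le
  obtain ⟨ff, hff, hconv⟩ := hseq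
  -- the exponent
  have hpow : (2 : ℝ) ^ ((k : ℝ) / (K0 * K0 : ℕ)) ≤ 2 ^ ((k : ℝ) / K0) := by
    apply Real.rpow_le_rpow_of_exponent_le (by norm_num)
    apply div_le_div_of_nonneg_left (by positivity) (by exact_mod_cast hK0pos)
    have : K0 ≤ K0 * K0 := Nat.le_mul_of_pos_left K0 hK0pos
    exact_mod_cast this
  have hpow1 : (2 : ℝ) ^ ((k : ℝ) / K0) ≤ 2 ^ ((k : ℝ) / K1) := by
    apply Real.rpow_le_rpow_of_exponent_le (by norm_num)
    apply div_le_div_of_nonneg_left (by positivity) (by exact_mod_cast hK1)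
    exact_mod_cast hK01
  set L := n / k with hL
  -- at least one term
  have hT1 : 1 ≤ T := by
    by_contra hT
    have hT0 : T = 0 := by omega
    subst hT0
    have h1 := main_real (n := n) (k := k) K (D := 1) (M := m * min e 1 + 2) (a := a) (e := e)
      (m := m) (T := 0) (by omega) (by omega) hk0 hkn (by omega) hd ff hff hconv (1 / 2)
      (by norm_num) (by norm_num)
    simp only [Nat.cast_zero, zero_mul, mul_zero] at h1
    have h2 : (0 : ℝ) < (1 / 2) ^ (v + 1 * (d - 1)) * 2 ^ (1 * k) := by positivity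
    linarith
  have hT' : 1 ≤ T * (a + L).choose L :=
    Nat.mul_pos hT1 (Nat.choose_pos (by omega))
  have hmain := H n k (m * min e n) d v (T * (a + L).choose L) (hK01.trans hkK0)
    ((Nat.mul_le_mul_right k (hK01.trans (Nat.le_mul_of_pos_left K0 hK0pos))).trans hn) hd
    (by
      have h1 : ((m * min e n : ℕ) : ℝ) * d = m * d * ((min e n : ℕ) : ℝ) := by
        rw [Nat.cast_mul]
        ring
      rw [h1]
      exact hmd.trans (mul_le_mul_of_nonneg_right (hpow.trans hpow1) (Nat.cast_nonneg _))) hnd hT' (by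
      intro D M hD1 hDk hM hDM q hq0 hq1
      have hDn : D ≤ n := (Nat.le_mul_of_pos_right D hk0).trans hDk
      have hM' : m * min e D ≤ M :=
        (Nat.mul_le_mul_left m (min_le_min_left e hDn)).trans hM
      have h1 := main_real (n := n) (k := k) K hM' hDM hk0 hkn hDk hd ff hff hconv q hq0 hq1
      have hDL : D ≤ L := by
        rw [hL, Nat.le_div_iff_mul_le hk0]
        exact hDk
      have h2 : T * (a + min e D).choose (min e D) ≤ T * (a + L).choose L :=
        Nat.mul_le_mul_left T (choose_mono' a ((min_le_right e D).trans hDL))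
      refine h1.trans ?_
      have h1q : ∀ i : ℕ, 0 ≤ 1 - q ^ i := fun i => by
        have := pow_le_one₀ (n := i) hq0.le hq1.le
        linarith
      have hS : 0 ≤ ∑ j ∈ Finset.range (2 * D + 1),
          (Nat.choose (2 * M - 2 * D - 1 + j) j : ℝ) * (1 - q ^ d) ^ j :=
        Finset.sum_nonneg (fun j _ => mul_nonneg (by positivity) (pow_nonneg (h1q d) _))
      refine mul_le_mul_of_nonneg_left ?_ (Finset.sum_nonneg fun j _ => by positivity)
      refine mul_le_mul_of_nonneg_right ?_ hS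
      exact_mod_cast h2)
  -- the number of multi-indices
  have hlog : (K0 : ℝ) * 1 * Real.log k ≤ k := by
    have h1 : Real.log k ≤ Real.sqrt k := by
      have hk' : (0 : ℝ) < k := by exact_mod_cast hk0
      have h2 : Real.log k = 2 * Real.log (Real.sqrt k) := by
        rw [Real.log_sqrt hk'.le]
        ring
      have h3 : Real.log (Real.sqrt k) ≤ Real.sqrt k / 2 := by
        have h4 := Real.log_le_sub_one_of_pos (x := Real.sqrt k / 2) (by positivity)
        rw [Real.log_div (by positivity) (by norm_num)] at h4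
        have h5 := Real.log_two_lt_d9
        linarith
      linarith
    have h2 : (K0 : ℝ) ≤ Real.sqrt k := by
      apply Real.le_sqrt_of_sq_le
      rw [sq]
      exact_mod_cast hk
    have h3 : Real.sqrt k * Real.sqrt k = k := Real.mul_self_sqrt (by positivity)
    have h4 : 0 ≤ Real.sqrt k := Real.sqrt_nonneg _
    have h5 : (0 : ℝ) ≤ Real.log k := Real.log_nonneg (by exact_mod_cast hk0)
    calc (K0 : ℝ) * 1 * Real.log k ≤ Real.sqrt k * Real.sqrt k := by
          rw [mul_one]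
          exact mul_le_mul h2 h1 h5 h4
      _ = k := h3
  have hcs := choose_small (ε := ε / 2) (lam := 1) (K := 1) (K0 := K0) (k := k) (n := n)
    (a := a) (L := L) le_rfl (by
      push_cast
      have h1 : 14 / ε ≤ (K0 : ℝ) := hK2.trans (by exact_mod_cast hK02)
      rw [div_le_iff₀ hε] at h1
      linarith) (by omega) hn1 le_rfl hlog (by
      rw [mul_one]
      refine ha.trans ?_
      rw [mul_comm]
      exact mul_le_mul_of_nonneg_left hpow (Nat.cast_nonneg _)) (by
      rw [hL, Nat.cast_one, one_mul, one_mul]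
      exact Nat.cast_div_le)
  have hfin : (2 : ℝ) ^ ((1 - v / n.choose k - ε / 2) * n : ℝ) ≤ T * 2 ^ (ε / 2 * n : ℝ) := by
    refine hmain.trans ?_
    push_cast
    gcongr
  have hsplit : (2 : ℝ) ^ ((1 - v / n.choose k - ε / 2) * n : ℝ) =
      2 ^ ((1 - v / n.choose k - ε) * n : ℝ) * 2 ^ (ε / 2 * n : ℝ) := by
    rw [← Real.rpow_add (by norm_num)]
    congr 1
    ring
  rw [hsplit] at hfin
  exact le_of_mul_le_mul_right hfin (by positivity)

end Pool.CF
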